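import Mathlib

set_option autoImplicit false
open MeasureTheory ProbabilityTheory

namespace Pool.Agent.Results.MP_8be476_pr.SpeedUp

/-- Vertices are words; the children of `u` are `i :: u`.  `ι u` is the index of `u`:
the root `[]` has `ι [] + 1` children, every other vertex `u` has `ι u` children. -/
def nch (ι : List ℕ → ℕ) (u : List ℕ) : ℕ := if u = [] then ι u + 1 else ι u

/-- conductance of the edge from the vertex `u` to its parent `u.tail` (point-mass laws at `γ k m`) -/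
def cond (γ : ℕ → ℕ → ℝ) (ι : List ℕ → ℕ) (u : List ℕ) : ℝ := γ (ι u.tail) (ι u)

/-- effective conductance from the parent of `u`, through `u`, to the descendants of `u`
that are `n` generations below `u` (series and parallel laws) -/
noncomputable def Cs (γ : ℕ → ℕ → ℝ) (ι : List ℕ → ℕ) : ℕ → List ℕ → ℝ
  | 0, u => cond γ ι u
  | n + 1, u => (1 / cond γ ι u + 1 / ∑ i ∈ Finset.range (nch ι u), Cs γ ι n (i :: u))⁻¹

/-- effective conductance to infinity of `T_0^*` (the neighbour `w_0` is `[0]`) -/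
noncomputable def Cstar (γ : ℕ → ℕ → ℝ) (ι : List ℕ → ℕ) : ℝ := ⨅ n, Cs γ ι n [0]

/-- effective conductance to infinity of the whole tree from the root -/
noncomputable def Ctree (γ : ℕ → ℕ → ℝ) (ι : List ℕ → ℕ) : ℝ :=
  ⨅ n, ∑ i ∈ Finset.range (nch ι []), Cs γ ι n [i]

/-- augmented Galton-Watson law: the indices are i.i.d. with law `p` -/
noncomputable def law (p : Measure ℕ) [IsProbabilityMeasure p] : Measure (List ℕ → ℕ) :=
  Measure.infinitePi (fun _ => p)

noncomputable def g0 (k m : ℕ) : ℝ := if k = 100 ∧ m = 100 then 2 else 1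

noncomputable def p0 : Measure ℕ := (2 : ENNReal)⁻¹ • Measure.dirac 2 + (2 : ENNReal)⁻¹ • Measure.dirac 100

instance : IsProbabilityMeasure p0 := ⟨by simp [p0, ENNReal.inv_two_add_inv_two]⟩

lemma g0_bd (k m : ℕ) : 1 ≤ g0 k m ∧ g0 k m ≤ 2 := by
  unfold g0; split_ifs <;> norm_num

lemma cs_bd (ι : List ℕ → ℕ) (h : ∀ u, 2 ≤ ι u) (n : ℕ) :
    ∀ u, 1 / 2 ≤ Cs g0 ι n u ∧ Cs g0 ι n u ≤ 2 := by
  induction n with
  | zero => intro u; have := g0_bd (ι u.tail) (ι u); simp only [Cs, cond]; constructor <;> linarith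
  | succ n ih =>
    intro u
    have hg := g0_bd (ι u.tail) (ι u)
    have hn : 2 ≤ nch ι u := by unfold nch; have := h u; split_ifs <;> omega
    have hS : (1 : ℝ) ≤ ∑ i ∈ Finset.range (nch ι u), Cs g0 ι n (i :: u) := by
      have := Finset.card_nsmul_le_sum (Finset.range (nch ι u)) (fun i => Cs g0 ι n (i :: u)) (1 / 2)
        (fun i _ => (ih _).1)
      rw [Finset.card_range, nsmul_eq_mul] at this
      have h2 : (2 : ℝ) ≤ nch ι u := by exact_mod_cast hn
      linarith
    simp only [Cs, cond]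
    set S := ∑ i ∈ Finset.range (nch ι u), Cs g0 ι n (i :: u)
    set a := g0 (ι u.tail) (ι u)
    have h1 : 1 / a ≤ 1 := by rw [div_le_one (by linarith)]; exact hg.1
    have h2 : 1 / S ≤ 1 := by rw [div_le_one (by linarith)]; exact hS
    have h3 : 1 / 2 ≤ 1 / a := one_div_le_one_div_of_le (by linarith) hg.2
    have h4 : 0 < 1 / S := by positivity
    constructor
    · rw [one_div (2 : ℝ)]; exact inv_anti₀ (by linarith) (by linarith)
    · rw [← inv_inv (2 : ℝ)]; exact inv_anti₀ (by norm_num) (by linarith)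

lemma meas_sum (f : ℕ → (List ℕ → ℕ) → ℝ) (hf : ∀ i, Measurable (f i)) (u : List ℕ) :
    Measurable fun ι => ∑ i ∈ Finset.range (nch ι u), f i ι := by
  have h1 : Measurable fun x : (List ℕ → ℕ) × ℕ => ∑ i ∈ Finset.range x.2, f i x.1 :=
    measurable_from_prod_countable_left fun k =>
      (Finset.measurable_sum (Finset.range k) fun i _ => hf i : Measurable fun a => ∑ i ∈ Finset.range k, f i a)
  have h2 : Measurable fun ι : List ℕ → ℕ => nch ι u := by
    unfold nch; split_ifs <;> fun_prop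
  exact h1.comp (measurable_id.prodMk h2)

lemma meas_cond (γ : ℕ → ℕ → ℝ) (u : List ℕ) : Measurable fun ι => cond γ ι u := by
  have h1 : Measurable fun x : ℕ × ℕ => γ x.1 x.2 := measurable_of_countable _
  have h2 : Measurable fun ι : List ℕ → ℕ => (ι u.tail, ι u) :=
    (measurable_pi_apply u.tail).prodMk (measurable_pi_apply u)
  exact h1.comp h2

lemma meas_cs (γ : ℕ → ℕ → ℝ) (n : ℕ) : ∀ u, Measurable fun ι => Cs γ ι n u := by
  induction n with
  | zero => intro u; exact meas_cond γ u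
  | succ n ih =>
    intro u
    simp only [Cs]
    exact ((measurable_const.div (meas_cond γ u)).add
      (measurable_const.div (meas_sum (fun i ι => Cs γ ι n (i :: u)) (fun i => ih _) u))).inv

lemma meas_R (γ : ℕ → ℕ → ℝ) : Measurable fun ι => Cstar γ ι / Ctree γ ι :=
  (Measurable.iInf fun n => meas_cs γ n _).div
    (Measurable.iInf fun n => meas_sum (fun i ι => Cs γ ι n [i]) (fun i => meas_cs γ n _) [])

lemma star_bd (ι : List ℕ → ℕ) (h : ∀ u, 2 ≤ ι u) : 1 / 2 ≤ Cstar g0 ι ∧ Cstar g0 ι ≤ 2 :=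
  ⟨le_ciInf fun n => (cs_bd ι h n _).1,
    ciInf_le_of_le ⟨1 / 2, by rintro _ ⟨n, rfl⟩; exact (cs_bd ι h n _).1⟩ 0 (cs_bd ι h 0 _).2⟩

lemma tree_bd (ι : List ℕ → ℕ) (h : ∀ u, 2 ≤ ι u) :
    ((ι [] : ℝ) + 1) / 2 ≤ Ctree g0 ι ∧ Ctree g0 ι ≤ 2 * ((ι [] : ℝ) + 1) := by
  have hl : ∀ n, ((ι [] : ℝ) + 1) / 2 ≤ ∑ i ∈ Finset.range (nch ι []), Cs g0 ι n [i] := by
    intro n
    have := Finset.card_nsmul_le_sum (Finset.range (nch ι [])) (fun i => Cs g0 ι n [i]) (1 / 2)
      (fun i _ => (cs_bd ι h n _).1)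
    rw [Finset.card_range, nsmul_eq_mul] at this
    simp only [nch, if_true, Nat.cast_add, Nat.cast_one] at this ⊢
    linarith
  refine ⟨le_ciInf hl, ciInf_le_of_le ⟨_, by rintro _ ⟨n, rfl⟩; exact hl n⟩ 0 ?_⟩
  have := Finset.sum_le_card_nsmul (Finset.range (nch ι [])) (fun i => Cs g0 ι 0 [i]) 2
    (fun i _ => (cs_bd ι h 0 _).2)
  rw [Finset.card_range, nsmul_eq_mul] at this
  simp only [nch, if_true, Nat.cast_add, Nat.cast_one] at this ⊢
  linarith

instance : IsProbabilityMeasure (law p0) := by unfold law; infer_instance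

lemma map_ev (u : List ℕ) : (law p0).map (fun ι => ι u) = p0 :=
  (measurePreserving_eval_infinitePi (fun _ : List ℕ => p0) u).map_eq

lemma ae_good : ∀ᵐ ι ∂(law p0), ∀ u, ι u = 2 ∨ ι u = 100 := by
  rw [ae_all_iff]
  intro u
  have h : ∀ᵐ k ∂p0, k = 2 ∨ k = 100 := by
    rw [ae_iff]
    simp [p0, Measure.dirac_apply, Set.indicator]
  rw [← map_ev u] at h
  exact ae_of_ae_map (measurable_pi_apply u).aemeasurable h

lemma prob_two : (law p0).real {ι | ι [] = 2} = 1 / 2 := by
  have : (law p0) ((fun ι => ι []) ⁻¹' {2}) = 2⁻¹ := by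
    rw [← Measure.map_apply (measurable_pi_apply _) (measurableSet_singleton _), map_ev]
    simp [p0, Measure.dirac_apply, Set.indicator]
  rw [Measure.real, show {ι : List ℕ → ℕ | ι [] = 2} = (fun ι => ι []) ⁻¹' {2} from rfl, this]
  simp

lemma prob_AB : (law p0).real {ι | ι [] = 100 ∧ ι [0] = 100} = 1 / 4 := by
  have h := Measure.infinitePi_pi (fun _ : List ℕ => p0) (s := {[], [0]}) (t := fun _ => {100})
    (fun _ _ => measurableSet_singleton _)
  have e : {ι : List ℕ → ℕ | ι [] = 100 ∧ ι [0] = 100} =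
      Set.pi (↑({[], [0]} : Finset (List ℕ))) (fun _ => ({100} : Set ℕ)) := by
    ext ι; simp [Set.mem_pi]
  have h1 : p0 {100} = 2⁻¹ := by simp [p0, Measure.dirac_apply, Set.indicator]
  rw [Measure.real, e, law, h, Finset.prod_pair (by simp), h1]
  simp; norm_num

theorem result : ∃ (p : Measure ℕ) (_ : IsProbabilityMeasure p) (γ : ℕ → ℕ → ℝ),
    p {0} = 0 ∧ p {1} < 1 ∧ (∀ k m, γ k m = γ m k) ∧ (∀ k m, 1 ≤ γ k m ∧ γ k m ≤ 2) ∧
    (∃ k m k' m', p {k} ≠ 0 ∧ p {m} ≠ 0 ∧ p {k'} ≠ 0 ∧ p {m'} ≠ 0 ∧ γ k m ≠ γ k' m') ∧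
    (∀ c, ¬ ∀ᵐ ι ∂(law p), cond γ ι [0] = c) ∧
    (∀ᵐ ι ∂(law p), 0 < Cstar γ ι ∧ 0 < Ctree γ ι) ∧
    MemLp (fun ι => cond γ ι [0]) 2 (law p) ∧ MemLp (fun ι => Cstar γ ι / Ctree γ ι) 2 (law p) ∧
    cov[fun ι => cond γ ι [0], fun ι => Cstar γ ι / Ctree γ ι; law p] < 0 := by
  have hge : ∀ ι : List ℕ → ℕ, (∀ u, ι u = 2 ∨ ι u = 100) → ∀ u, 2 ≤ ι u := fun ι h u => by
    rcases h u with h | h <;> omega
  have hX : MemLp (fun ι => cond g0 ι [0]) 2 (law p0) :=
    MemLp.of_bound (meas_cond _ _).aestronglyMeasurable 2 (ae_of_all _ fun ι => by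
      have := g0_bd (ι ([0] : List ℕ).tail) (ι [0])
      rw [Real.norm_eq_abs, abs_le]; unfold cond; constructor <;> linarith)
  have hR : ∀ᵐ ι ∂(law p0), 0 ≤ Cstar g0 ι / Ctree g0 ι ∧ Cstar g0 ι / Ctree g0 ι ≤ 2 ∧
      (ι [] = 2 → 1 / 12 ≤ Cstar g0 ι / Ctree g0 ι) ∧
      (ι [] = 100 → Cstar g0 ι / Ctree g0 ι ≤ 4 / 101) := by
    filter_upwards [ae_good] with ι h
    have h1 := star_bd ι (hge ι h)
    have h2 := tree_bd ι (hge ι h)
    have h3 : (2 : ℝ) ≤ ι [] := by exact_mod_cast hge ι h []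
    have h4 : 0 < Ctree g0 ι := by linarith
    refine ⟨div_nonneg (by linarith) h4.le, ?_, fun h0 => ?_, fun h0 => ?_⟩
    · rw [div_le_iff₀ h4]; linarith
    · rw [h0] at h2; rw [le_div_iff₀ h4]; push_cast at h2; linarith
    · rw [h0] at h2; rw [div_le_iff₀ h4]; push_cast at h2; linarith
  have hY : MemLp (fun ι => Cstar g0 ι / Ctree g0 ι) 2 (law p0) :=
    MemLp.of_bound (meas_R _).aestronglyMeasurable 2 (by
      filter_upwards [hR] with ι h
      rw [Real.norm_eq_abs, abs_le]; constructor <;> linarith [h.1, h.2.1])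
  set A : Set (List ℕ → ℕ) := {ι | ι [] = 100 ∧ ι [0] = 100} with hA
  set B : Set (List ℕ → ℕ) := {ι | ι [] = 2} with hB
  have mA : MeasurableSet A :=
    (measurable_pi_apply [] (measurableSet_singleton 100)).inter
      (measurable_pi_apply [0] (measurableSet_singleton 100))
  have mB : MeasurableSet B := measurable_pi_apply [] (measurableSet_singleton 2)
  have hc : ∀ ι, cond g0 ι [0] = 1 + A.indicator (fun _ => (1 : ℝ)) ι := by
    intro ι
    by_cases h : ι ∈ A
    · rw [Set.indicator_of_mem h]; unfold cond g0; rw [if_pos (by exact h)]; norm_num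
    · rw [Set.indicator_of_notMem h]; unfold cond g0; rw [if_neg (by exact h)]; norm_num
  have hcov : cov[fun ι => cond g0 ι [0], fun ι => Cstar g0 ι / Ctree g0 ι; law p0] < 0 := by
    rw [covariance_eq_sub hX hY]
    have iY := hY.integrable (by norm_num)
    have iA : Integrable (A.indicator (fun _ => (1 : ℝ))) (law p0) :=
      (integrable_const _).indicator mA
    have e1 : ∫ ι, cond g0 ι [0] ∂(law p0) = 1 + 1 / 4 := by
      simp_rw [hc]
      rw [integral_add (integrable_const _) iA, integral_indicator_const _ mA, prob_AB]; simp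
    have e2 : ∫ ι, ((fun ι => cond g0 ι [0]) * fun ι => Cstar g0 ι / Ctree g0 ι) ι ∂(law p0) ≤
        ∫ ι, (Cstar g0 ι / Ctree g0 ι + A.indicator (fun _ => (4 / 101 : ℝ)) ι) ∂(law p0) := by
      refine integral_mono_ae (hX.integrable_mul hY) (iY.add ((integrable_const _).indicator mA)) ?_
      filter_upwards [hR] with ι h
      simp only [Pi.mul_apply, hc]
      by_cases ha : ι ∈ A
      · rw [Set.indicator_of_mem ha, Set.indicator_of_mem ha]; linarith [h.2.2.2 ha.1]
      · rw [Set.indicator_of_notMem ha, Set.indicator_of_notMem ha]; linarith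
    rw [integral_add iY ((integrable_const _).indicator mA), integral_indicator_const _ mA,
      prob_AB] at e2
    have e3 : ∫ ι, B.indicator (fun _ => (1 / 12 : ℝ)) ι ∂(law p0) ≤
        ∫ ι, Cstar g0 ι / Ctree g0 ι ∂(law p0) := by
      refine integral_mono_ae ((integrable_const _).indicator mB) iY ?_
      filter_upwards [hR] with ι h
      by_cases hb : ι ∈ B
      · rw [Set.indicator_of_mem hb]; exact h.2.2.1 hb
      · rw [Set.indicator_of_notMem hb]; exact h.1
    rw [integral_indicator_const _ mB, prob_two] at e3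
    simp only [smul_eq_mul] at e2 e3
    rw [e1]
    linarith
  refine ⟨p0, inferInstance, g0, ?_, ?_, ?_, g0_bd, ⟨2, 2, 100, 100, ?_, ?_, ?_, ?_, ?_⟩, ?_, ?_,
    hX, hY, hcov⟩
  · simp [p0, Measure.dirac_apply, Set.indicator]
  · simp [p0, Measure.dirac_apply, Set.indicator]
  · intro k m; simp only [g0, and_comm]
  · simp [p0, Measure.dirac_apply, Set.indicator]
  · simp [p0, Measure.dirac_apply, Set.indicator]
  · simp [p0, Measure.dirac_apply, Set.indicator]
  · simp [p0, Measure.dirac_apply, Set.indicator]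
  · simp [g0]
  · intro c h
    have : cov[fun ι => cond g0 ι [0], fun ι => Cstar g0 ι / Ctree g0 ι; law p0] = 0 := by
      unfold covariance
      have e : ∫ ι, cond g0 ι [0] ∂(law p0) = c := by rw [integral_congr_ae h]; simp
      rw [e]
      refine integral_eq_zero_of_ae ?_
      filter_upwards [h] with ι hι
      simp [hι]
    linarith
  · filter_upwards [ae_good] with ι h
    have h1 := star_bd ι (hge ι h)
    have h2 := tree_bd ι (hge ι h)
    have h3 : (2 : ℝ) ≤ ι [] := by exact_mod_cast hge ι h []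
    constructor <;> linarith

end Pool.Agent.Results.MP_8be476_pr.SpeedUp
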